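import Pool.Agent.Helper18.SU.Goals

/-! Packet NUM of MP_f2ad72_co: the numbers. -/

set_option autoImplicit false

namespace Pool.Agent.Helper11.SU

open Pool.Agent.Helper18.SU

theorem log_le_div {t : ℝ} (ht : 0 < t) : Real.log t ≤ t / 2.718 := by
  have he : (2.718 : ℝ) < Real.exp 1 := by
    have := Real.exp_one_gt_d9
    linarith
  have h1 : Real.log (t / Real.exp 1) ≤ t / Real.exp 1 - 1 :=
    Real.log_le_sub_one_of_pos (by positivity)
  rw [Real.log_div ht.ne' (Real.exp_pos 1).ne', Real.log_exp] at h1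
  have h2 : t / Real.exp 1 ≤ t / 2.718 :=
    div_le_div_of_nonneg_left ht.le (by norm_num) he.le
  linarith

theorem size_le {n s : ℕ} (hn : 2 ≤ n) (hs : s < n) : (Nat.size s : ℝ) ≤ 2 * Real.log n := by
  have hn0 : (2 : ℝ) ≤ n := by exact_mod_cast hn
  have hlog2 : Real.log 2 ≤ Real.log n := Real.log_le_log (by norm_num) hn0
  have hl2 := Real.log_two_gt_d9
  have hpow : 1 ≤ Nat.size s → 2 ^ (Nat.size s - 1) ≤ s := fun h =>
    Nat.lt_size.1 (by omega)
  by_cases h0 : Nat.size s = 0
  · rw [h0]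
    push_cast
    linarith
  by_cases h1 : Nat.size s = 1
  · rw [h1]
    push_cast
    linarith
  have hp := hpow (by omega)
  have he := Real.exp_one_lt_d9
  by_cases h2 : Nat.size s = 2
  · rw [h2] at hp ⊢
    have hn3 : (3 : ℝ) ≤ n := by
      have : 3 ≤ n := by
        norm_num at hp
        omega
      exact_mod_cast this
    have h3 : 1 ≤ Real.log n := by
      rw [Real.le_log_iff_exp_le (by linarith)]
      linarith
    push_cast
    linarith
  by_cases h3 : Nat.size s = 3
  · rw [h3] at hp ⊢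
    have hn5 : (5 : ℝ) ≤ n := by
      have : 5 ≤ n := by
        norm_num at hp
        omega
      exact_mod_cast this
    have h4 : 3 ≤ 2 * Real.log n := by
      have h5 : 2 * Real.log n = Real.log ((n : ℝ) ^ 2) := by
        rw [Real.log_pow]
        push_cast
        ring
      rw [h5, Real.le_log_iff_exp_le (by positivity)]
      have h6 : Real.exp 3 = Real.exp 1 ^ 3 := by
        rw [← Real.exp_nat_mul]
        norm_num
      rw [h6]
      have h7 : Real.exp 1 ^ 3 ≤ 2.7182818286 ^ 3 :=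
        pow_le_pow_left₀ (Real.exp_pos 1).le he.le 3
      have h8 : (25 : ℝ) ≤ (n : ℝ) ^ 2 := by nlinarith
      norm_num at h7
      linarith
    push_cast
    linarith
  have h4 : 4 ≤ Nat.size s := by omega
  have h5 : ((2 : ℝ)) ^ (Nat.size s - 1) ≤ n := by
    have : 2 ^ (Nat.size s - 1) ≤ n := by omega
    exact_mod_cast this
  have h6 : ((Nat.size s - 1 : ℕ) : ℝ) * Real.log 2 ≤ Real.log n := by
    rw [← Real.log_pow]
    exact Real.log_le_log (by positivity) h5
  have h7 : ((Nat.size s - 1 : ℕ) : ℝ) = (Nat.size s : ℝ) - 1 := by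
    rw [Nat.cast_sub (by omega)]
    simp
  rw [h7] at h6
  have h8 : (4 : ℝ) ≤ Nat.size s := by exact_mod_cast h4
  nlinarith

theorem NUM : NUM_stmt := by
  intro n s F hn hs hF
  have hn0 : (2 : ℝ) ≤ n := by exact_mod_cast hn
  have hl2 := Real.log_two_gt_d9
  have hlog2 : Real.log 2 ≤ Real.log n := Real.log_le_log (by norm_num) hn0
  have hR := size_le hn hs
  set l : ℝ := Real.log n with hl
  have hl0 : 0 < l := by linarith
  have hs0 : (0 : ℝ) ≤ s := Nat.cast_nonneg s
  have hsn : (s : ℝ) ≤ n := by exact_mod_cast hs.le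
  have hR0 : (0 : ℝ) ≤ (Nat.size s : ℝ) := Nat.cast_nonneg _
  refine ⟨Nat.size s, l + 6, by linarith, Nat.lt_size_self s, ?_, ?_⟩
  · have h1 : 27 * (l + 6) * (Nat.size s : ℝ) ≤ 54 * l * (l + 6) := by nlinarith
    have h2 : Real.sqrt (2 * (l + 6) * (Nat.size s : ℝ) * s) ≤ 2 * Real.sqrt s * (l + 3) := by
      refine Real.sqrt_le_iff.2 ⟨by positivity, ?_⟩
      have h3 : (2 * Real.sqrt s * (l + 3)) ^ 2 = 4 * s * (l + 3) ^ 2 := by
        have := Real.sq_sqrt hs0
        calc (2 * Real.sqrt s * (l + 3)) ^ 2 = 4 * (Real.sqrt s ^ 2) * (l + 3) ^ 2 := by ring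
          _ = _ := by rw [this]
      rw [h3]
      have h4 : 2 * (l + 6) * (Nat.size s : ℝ) ≤ 4 * (l + 3) ^ 2 := by nlinarith
      calc 2 * (l + 6) * (Nat.size s : ℝ) * s ≤ 4 * (l + 3) ^ 2 * s :=
            mul_le_mul_of_nonneg_right h4 hs0
        _ = 4 * s * (l + 3) ^ 2 := by ring
    unfold erf
    rw [← hl]
    linarith
  · set x : ℝ := Real.sqrt n with hx
    have hnn : (0 : ℝ) ≤ n := by linarith
    have hx2 : x ^ 2 = n := Real.sq_sqrt hnn
    have hx0 : 1.414 ≤ x := by
      rw [hx]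
      refine Real.le_sqrt_of_sq_le ?_
      norm_num
      linarith
    have hsx : Real.sqrt s ≤ x := Real.sqrt_le_sqrt hsn
    have hss : 0 ≤ Real.sqrt s := Real.sqrt_nonneg _
    have h1 : l ≤ n / 2.718 := log_le_div (by linarith)
    have h2 : l ≤ 2 * (x / 2.718) := by
      have h3 : l = 2 * Real.log x := by
        rw [hl, ← hx2, Real.log_pow]
        push_cast
        ring
      rw [h3]
      have := log_le_div (t := x) (by linarith)
      linarith
    have h3 : l ^ 2 ≤ (2 * (x / 2.718)) ^ 2 := pow_le_pow_left₀ hl0.le h2 2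
    have h4 : Real.sqrt s * l ≤ x * (2 * (x / 2.718)) := by
      calc Real.sqrt s * l ≤ x * l := mul_le_mul_of_nonneg_right hsx hl0.le
        _ ≤ _ := mul_le_mul_of_nonneg_left h2 (by linarith)
    have h5 : 1.414 * x ≤ n := by
      rw [← hx2]
      nlinarith
    have hF' : (F : ℝ) ≤ 3 * n := by exact_mod_cast hF
    have h6 : Real.exp (l + 6) = n * Real.exp 6 := by
      rw [Real.exp_add, hl, Real.exp_log (by linarith)]
    have h7 : (400 : ℝ) ≤ Real.exp 6 := by
      have h8 : Real.exp 6 = Real.exp 1 ^ 6 := by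
        rw [← Real.exp_nat_mul]
        norm_num
      rw [h8]
      have h9 : (2.718 : ℝ) ^ 6 ≤ Real.exp 1 ^ 6 := by
        refine pow_le_pow_left₀ (by norm_num) ?_ 6
        have := Real.exp_one_gt_d9
        linarith
      norm_num at h9
      linarith
    rw [h6]
    have h8 : (n : ℝ) * 400 ≤ n * Real.exp 6 := mul_le_mul_of_nonneg_left h7 hnn
    refine le_trans ?_ h8
    unfold erf
    rw [← hl]
    have h3' : l ^ 2 ≤ 0.5415 * n := by
      have : (2 * (x / 2.718)) ^ 2 = 4 / 2.718 ^ 2 * n := by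
        rw [← hx2]
        ring
      rw [this] at h3
      have h9 : (4 : ℝ) / 2.718 ^ 2 ≤ 0.5415 := by norm_num
      nlinarith
    have h4' : Real.sqrt s * l ≤ 0.736 * n := by
      have : x * (2 * (x / 2.718)) = 2 / 2.718 * n := by
        rw [← hx2]
        ring
      rw [this] at h4
      have h9 : (2 : ℝ) / 2.718 ≤ 0.736 := by norm_num
      nlinarith
    have h1' : l ≤ 0.368 * n := by
      have : (n : ℝ) / 2.718 = 1 / 2.718 * n := by ring
      rw [this] at h1
      have h9 : (1 : ℝ) / 2.718 ≤ 0.368 := by norm_num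
      nlinarith
    nlinarith
end Pool.Agent.Helper11.SU
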